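import Pool.Agent.X38.WP

/-!
# Weighted products of distances on the unit circle

For all points `z 1, ..., z r` of the unit circle and all weights `p j ≥ 0` with sum `r` the maximum
over the circle of `∏ |w - z j| ^ p j` is at least `2`.  (Real powers, `0 ^ 0 = 1`.)
-/

set_option autoImplicit false

namespace Pool.Agent.Results.MP_280d4a_an.WeightedDistances

theorem result (r : ℕ) (hr : 1 ≤ r) (z : Fin r → ℂ) (hz : ∀ j, ‖z j‖ = 1)
    (p : Fin r → ℝ) (hp : ∀ j, 0 ≤ p j) (hsum : ∑ j, p j = (r : ℝ)) :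
    ∃ w : ℂ, ‖w‖ = 1 ∧ 2 ≤ ∏ j, ‖w - z j‖ ^ p j :=
  Pool.Agent.X38.WP.exists_ge r hr z hz p hp hsum

end Pool.Agent.Results.MP_280d4a_an.WeightedDistances
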